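import Pool.Agent.H97.SHL.Targets

/-!
Row BAL of the board shl_modules (MP_c62aed_lc): balancing of tree-like refutations.
-/

set_option autoImplicit false

namespace Pool.Agent.H1.SHL

open Finset Pool.Agent.H97.SHL

/-- trees relative to a domain `Q`; the number counts the leaves -/
inductive TR {X : Type} [DecidableEq X] (𝓛 : Finset (Finset X)) (Lf : Finset X → Prop)
    (Q : Finset X) : Finset X → ℕ → Prop
  | lf (A : Finset X) : Lf (A ∩ Q) → TR 𝓛 Lf Q A 1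
  | wk (A A' : Finset X) (l : ℕ) : A ∩ Q ⊆ A' → TR 𝓛 Lf Q A' l → TR 𝓛 Lf Q A l
  | nd (A A₁ A₂ : Finset X) (l₁ l₂ : ℕ) : A₁ ∈ 𝓛 → A₂ ∈ 𝓛 → A ∩ Q ⊆ A₁ ∪ A₂ →
      TR 𝓛 Lf Q A₁ l₁ → TR 𝓛 Lf Q A₂ l₂ → TR 𝓛 Lf Q A (l₁ + l₂)

variable {X : Type} [DecidableEq X] {𝓛 : Finset (Finset X)} {Lf : Finset X → Prop}

theorem TR.pos {Q A : Finset X} {l : ℕ} (h : TR 𝓛 Lf Q A l) : 1 ≤ l := by
  induction h with
  | lf A h => exact le_refl 1
  | wk A A' l h1 h2 ih => exact ih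
  | nd A A₁ A₂ l₁ l₂ h1 h2 h3 h4 h5 ih1 ih2 => omega

theorem TR.of_tree (hLf : ∀ Q Q', Lf Q → Q' ⊆ Q → Lf Q') {A : Finset X} {s : ℕ}
    (h : TreeX 𝓛 Lf A s) : A ∈ 𝓛 ∧ ∃ l, l ≤ s ∧ ∀ Q, TR 𝓛 Lf Q A l := by
  induction h with
  | ax A hA hL =>
    exact ⟨hA, 1, le_refl 1, fun Q => TR.lf A (hLf _ _ hL inter_subset_left)⟩
  | weak A A' s hA _ hs ih =>
    obtain ⟨_, l, hl, h⟩ := ih
    exact ⟨hA, l, by omega, fun Q => TR.wk A A' l (inter_subset_left.trans hs) (h Q)⟩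
  | res A A₁ A₂ s₁ s₂ hA _ _ hs ih1 ih2 =>
    obtain ⟨h1, l₁, hl₁, ht₁⟩ := ih1
    obtain ⟨h2, l₂, hl₂, ht₂⟩ := ih2
    exact ⟨hA, l₁ + l₂, by omega,
      fun Q => TR.nd A A₁ A₂ l₁ l₂ h1 h2 (inter_subset_left.trans hs) (ht₁ Q) (ht₂ Q)⟩

theorem TR.restrict (hLf : ∀ Q Q', Lf Q → Q' ⊆ Q → Lf Q') {Q Q' A : Finset X} {l : ℕ}
    (h : TR 𝓛 Lf Q A l) (hQ : Q' ⊆ Q) : TR 𝓛 Lf Q' A l := by
  induction h with
  | lf A h => exact TR.lf A (hLf _ _ h (inter_subset_inter_left hQ))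
  | wk A A' l h1 h2 ih => exact TR.wk A A' l ((inter_subset_inter_left hQ).trans h1) ih
  | nd A A₁ A₂ l₁ l₂ h1 h2 h3 h4 h5 ih1 ih2 =>
    exact TR.nd A A₁ A₂ l₁ l₂ h1 h2 ((inter_subset_inter_left hQ).trans h3) ih1 ih2

theorem TR.leaf_of_one (hLf : ∀ Q Q', Lf Q → Q' ⊆ Q → Lf Q') {Q A : Finset X} {l : ℕ}
    (h : TR 𝓛 Lf Q A l) : l = 1 → Lf (A ∩ Q) := by
  induction h with
  | lf A h => exact fun _ => h
  | wk A A' l h1 h2 ih =>
    intro hl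
    refine hLf _ _ (ih hl) fun x hx => ?_
    exact mem_inter.2 ⟨h1 hx, (mem_inter.1 hx).2⟩
  | nd A A₁ A₂ l₁ l₂ h1 h2 h3 h4 h5 ih1 ih2 =>
    intro hl
    have := h4.pos
    have := h5.pos
    omega

theorem DT_mono (hLf : ∀ Q Q', Lf Q → Q' ⊆ Q → Lf Q') {Q : Finset X} {t s : ℕ}
    (h : DT 𝓛 Lf Q t s) : ∀ Q' ⊆ Q, DT 𝓛 Lf Q' t s := by
  induction h with
  | leaf Q t h => exact fun Q' hQ' => DT.leaf Q' t (hLf _ _ h hQ')
  | node Q A t s₁ s₂ hA _ _ ih1 ih2 =>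
    exact fun Q' hQ' => DT.node Q' A t s₁ s₂ hA (ih1 _ (inter_subset_inter_right hQ'))
      (ih2 _ (sdiff_subset_sdiff hQ' (subset_refl _)))

theorem split (hLf : ∀ Q Q', Lf Q → Q' ⊆ Q → Lf Q') {Q A : Finset X} {l : ℕ}
    (h : TR 𝓛 Lf Q A l) : ∀ θ, 1 ≤ θ → θ < l →
      ∃ V ∈ 𝓛, ∃ v, v ≤ θ ∧ θ < 2 * v ∧ v < l ∧ TR 𝓛 Lf Q V v ∧
        TR 𝓛 Lf (Q \ V) A (l - v) := by
  induction h with
  | lf A h => intro θ h1 h2; omega
  | wk A A' l h1 h2 ih =>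
    intro θ hθ hl
    obtain ⟨V, hV, v, a1, a2, a3, a4, a5⟩ := ih θ hθ hl
    refine ⟨V, hV, v, a1, a2, a3, a4, TR.wk A A' _ (fun x hx => ?_) a5⟩
    rw [mem_inter, mem_sdiff] at hx
    exact h1 (mem_inter.2 ⟨hx.1, hx.2.1⟩)
  | nd A A₁ A₂ l₁ l₂ h1 h2 h3 h4 h5 ih1 ih2 =>
    intro θ hθ hl
    have p1 := h4.pos
    have p2 := h5.pos
    rcases le_total l₂ l₁ with hle | hle
    · rcases Nat.lt_or_ge θ l₁ with hlt | hge
      · obtain ⟨V, hV, v, a1, a2, a3, a4, a5⟩ := ih1 θ hθ hlt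
        refine ⟨V, hV, v, a1, a2, by omega, a4, ?_⟩
        have e : l₁ + l₂ - v = (l₁ - v) + l₂ := by omega
        rw [e]
        refine TR.nd A A₁ A₂ _ _ h1 h2 (fun x hx => ?_) a5 (h5.restrict hLf sdiff_subset)
        rw [mem_inter, mem_sdiff] at hx
        exact h3 (mem_inter.2 ⟨hx.1, hx.2.1⟩)
      · refine ⟨A₁, h1, l₁, hge, by omega, by omega, h4, ?_⟩
        have e : l₁ + l₂ - l₁ = l₂ := by omega
        rw [e]
        refine TR.wk A A₂ _ (fun x hx => ?_) (h5.restrict hLf sdiff_subset)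
        rw [mem_inter, mem_sdiff] at hx
        rcases mem_union.1 (h3 (mem_inter.2 ⟨hx.1, hx.2.1⟩)) with h | h
        · exact absurd h hx.2.2
        · exact h
    · rcases Nat.lt_or_ge θ l₂ with hlt | hge
      · obtain ⟨V, hV, v, a1, a2, a3, a4, a5⟩ := ih2 θ hθ hlt
        refine ⟨V, hV, v, a1, a2, by omega, a4, ?_⟩
        have e : l₁ + l₂ - v = l₁ + (l₂ - v) := by omega
        rw [e]
        refine TR.nd A A₁ A₂ _ _ h1 h2 (fun x hx => ?_) (h4.restrict hLf sdiff_subset) a5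
        rw [mem_inter, mem_sdiff] at hx
        exact h3 (mem_inter.2 ⟨hx.1, hx.2.1⟩)
      · refine ⟨A₂, h2, l₂, hge, by omega, by omega, h5, ?_⟩
        have e : l₁ + l₂ - l₂ = l₁ := by omega
        rw [e]
        refine TR.wk A A₁ _ (fun x hx => ?_) (h4.restrict hLf sdiff_subset)
        rw [mem_inter, mem_sdiff] at hx
        rcases mem_union.1 (h3 (mem_inter.2 ⟨hx.1, hx.2.1⟩)) with h | h
        · exact h
        · exact absurd h hx.2.2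

theorem main (hLf : ∀ Q Q', Lf Q → Q' ⊆ Q → Lf Q') : ∀ (t : ℕ) (Q A : Finset X) (l : ℕ),
    TR 𝓛 Lf Q A l → l * 2 ^ t ≤ 3 ^ t → ∃ l', l' ≤ l ∧ DT 𝓛 Lf (A ∩ Q) t l' := by
  intro t
  induction t with
  | zero =>
    intro Q A l h hl
    have hp := h.pos
    have : l = 1 := by
      rw [pow_zero, pow_zero] at hl
      omega
    exact ⟨1, hp, DT.leaf _ _ (h.leaf_of_one hLf this)⟩
  | succ t ih =>
    intro Q A l h hl
    have hp := h.pos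
    rcases Nat.eq_or_lt_of_le hp with h1 | h1
    · exact ⟨1, hp, DT.leaf _ _ (h.leaf_of_one hLf h1.symm)⟩
    · obtain ⟨V, hV, v, a1, a2, a3, a4, a5⟩ := split hLf h (2 * l / 3) (by omega) (by omega)
      have b1 : 3 * v ≤ 2 * l := by omega
      have b2 : 3 * (l - v) ≤ 2 * l := by omega
      have c : ∀ w, 3 * w ≤ 2 * l → w * 2 ^ t ≤ 3 ^ t := by
        intro w hw
        rw [pow_succ, pow_succ] at hl
        have e1 : 3 * (w * 2 ^ t) ≤ 3 * 3 ^ t := by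
          calc 3 * (w * 2 ^ t) = (3 * w) * 2 ^ t := by ring
            _ ≤ (2 * l) * 2 ^ t := Nat.mul_le_mul_right _ hw
            _ = l * (2 ^ t * 2) := by ring
            _ ≤ 3 ^ t * 3 := hl
            _ = 3 * 3 ^ t := by ring
        omega
      obtain ⟨v', hv', d1⟩ := ih Q V v a4 (c v b1)
      obtain ⟨v'', hv'', d2⟩ := ih (Q \ V) A (l - v) a5 (c _ b2)
      refine ⟨v' + v'', by omega, DT.node _ V t _ _ hV ?_ ?_⟩
      · refine DT_mono hLf d1 _ fun x hx => ?_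
        rw [mem_inter, mem_inter] at hx
        exact mem_inter.2 ⟨hx.2, hx.1.2⟩
      · refine DT_mono hLf d2 _ fun x hx => ?_
        rw [mem_sdiff, mem_inter] at hx
        exact mem_inter.2 ⟨hx.1.1, mem_sdiff.2 ⟨hx.1.2, hx.2⟩⟩

/-- (BAL) balancing of tree-like refutations. -/
theorem pf_BAL : T_BAL := by
  intro X _ 𝓛 Lf hLf A s t h hs
  obtain ⟨_, l, hl, hT⟩ := TR.of_tree hLf h
  obtain ⟨l', h1, h2⟩ := main hLf t A A l (hT A)
    ((Nat.mul_le_mul_right _ hl).trans hs)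
  rw [inter_self] at h2
  exact ⟨l', h1.trans hl, h2⟩

end Pool.Agent.H1.SHL
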